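import Pool.Agent.Q98.SPN.Stm

set_option autoImplicit false

/-!
Package PC of project GSP (MP_1157dd_an): partial colouring.
-/

open scoped Matrix.Norms.L2Operator Matrix
open Finset

namespace Pool.Agent.U324.GSP.PC

open Pool.Agent.H172R2.GS (sg XX arrays)
open Pool.Agent.Q98.SPN

lemma sg_cases (x y : Bool) :
    (sg x - sg y) / 2 = 0 ∨ (sg x - sg y) / 2 = 1 ∨ (sg x - sg y) / 2 = -1 := by
  cases x <;> cases y <;> norm_num [sg]

lemma sg_ne (x y : Bool) : x ≠ y ↔ (sg x - sg y) / 2 ≠ 0 := by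
  cases x <;> cases y <;> norm_num [sg]

theorem t_PC : S_GOOD → S_COV → S_PC := by
  intro hG hC ι _ _ d κ N hd hN hκ J _ _ A hJ hNJ hA
  classical
  set m : ℕ := Fintype.card J with hm
  obtain ⟨E, hE, hEt⟩ := hG ι d N hN κ (by omega) J (by omega) A hA
  obtain ⟨F, hF, hFc⟩ := hC ι d m κ N hd hN (by omega) hκ hNJ
  have hex : ∀ ε ∈ E, ∃ Z ∈ F, ∀ i, ‖XX (fun g => A g i) ε - Z i‖ ≤ 3 * sc m κ := fun ε hε =>
    hFc (fun i => XX (fun g => A g i) ε) (hEt ε hε)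
  choose! φ hφF hφ using hex
  set t : ℝ := (2 : ℝ) ^ m / 2 * Real.exp (-(m : ℝ) / 50) with ht
  have hE0 : E.Nonempty := by
    rw [Finset.nonempty_iff_ne_empty]
    rintro rfl
    have h1 : (0:ℝ) < (2 : ℝ) ^ m / 2 := by positivity
    rw [Finset.card_empty, Nat.cast_zero] at hE
    linarith
  obtain ⟨ε₀, hε₀⟩ := hE0
  have hF0 : F.Nonempty := ⟨φ ε₀, hφF ε₀ hε₀⟩
  have hexp : Real.exp ((m : ℝ) / 50) * Real.exp (-(m : ℝ) / 50) = 1 := by
    rw [← Real.exp_add, show (m : ℝ) / 50 + -(m : ℝ) / 50 = 0 by ring, Real.exp_zero]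
  have hns : F.card • t ≤ (E.card : ℝ) := by
    rw [nsmul_eq_mul]
    calc (F.card : ℝ) * t ≤ Real.exp ((m : ℝ) / 50) * t := by gcongr
      _ = (2 : ℝ) ^ m / 2 * (Real.exp ((m : ℝ) / 50) * Real.exp (-(m : ℝ) / 50)) := by
        rw [ht]; ring
      _ = (2 : ℝ) ^ m / 2 := by rw [hexp, mul_one]
      _ ≤ E.card := hE
  obtain ⟨Z, -, hZ⟩ := Finset.exists_le_card_fiber_of_nsmul_le_card_of_maps_to hφF hF0 hns
  obtain ⟨a, ha, b, hb, hab⟩ := Pool.Agent.H172R2.GS.HAM_ok J (E.filter fun x => φ x = Z) hJ hZ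
  rw [Finset.mem_filter] at ha hb
  refine ⟨fun g => (sg (a g) - sg (b g)) / 2, fun g => sg_cases _ _, ?_, fun i => ?_⟩
  · refine hab.trans (le_of_eq ?_)
    congr 3
    ext g
    rw [Finset.mem_filter, Finset.mem_filter, sg_ne]
  · have e1 : ∑ g, (((sg (a g) - sg (b g)) / 2 : ℝ) : ℂ) • A g i =
        (1 / 2 : ℂ) • ((XX (fun g => A g i) a - Z i) - (XX (fun g => A g i) b - Z i)) := by
      rw [sub_sub_sub_cancel_right]
      unfold XX
      rw [← Finset.sum_sub_distrib, Finset.smul_sum]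
      refine Finset.sum_congr rfl fun g _ => ?_
      rw [← sub_smul, smul_smul]
      congr 1
      push_cast
      ring
    rw [e1, norm_smul]
    have h1 := hφ a ha.1 i
    have h2 := hφ b hb.1 i
    rw [ha.2] at h1
    rw [hb.2] at h2
    have h3 := norm_sub_le (XX (fun g => A g i) a - Z i) (XX (fun g => A g i) b - Z i)
    have h4 : ‖(1 / 2 : ℂ)‖ = 1 / 2 := by norm_num
    rw [h4]
    linarith

end Pool.Agent.U324.GSP.PC
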